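import Pool.Agent.Lib.MP_ef18bd_co.R79.Idx3

/-!
# The first records of a phase in pieces

`j0F`: the records `i, i + 1, ..` are closed patterns, one hint for each, with the fast test `wfF`.
`ents_dnF`: one piece after the other.
-/

namespace EF18.P79

/-- the records `i, ..` are closed patterns, one hint for each -/
def j0F (Ps : List (ℕ × ℕ)) (B : ℕ) : ℕ → ℕ → ℕ → Bool
  | 0, _, _ => true
  | j + 1, i, H => frc (rcd B i) fun R => frc (Nat.mod R 256) fun n => frc (Nat.div R 256) fun p =>
    memI Ps (Nat.mod H 16777216) n p && wfF n p && frc (Nat.succ i) fun i' => frc (Nat.div H 16777216) fun H' =>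
      j0F Ps B j i' H'

theorem j0F_of {Ps : List (ℕ × ℕ)} {B : ℕ} : ∀ {j i H : ℕ}, j0F Ps B j i H = true → ∀ l, i ≤ l → l < i + j →
    prc B l ∈ dnL Ps ∧ wfp (prc B l) = true := by
  intro j
  induction j with
  | zero => intro i H _ l h1 h2; omega
  | succ j ih =>
    intro i H h l h1 h2
    rw [j0F, frc_eq, frc_eq, frc_eq, frc_eq, frc_eq] at h
    simp only [Bool.and_eq_true] at h
    rcases Nat.lt_or_ge i l with h3 | h3
    · exact ih h.2 l h3 (by omega)
    · rw [show l = i by omega]
      refine ⟨memI_of h.1.1, ?_⟩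
      have e := h.1.2
      rw [wfF_eq] at e
      exact e

/-- the start -/
theorem ents_zeroF (Ps : List (ℕ × ℕ)) (st : Stp) (B : ℕ) : ∀ i < 0, Val (stD (dnL Ps) st) (prc B i) :=
  fun _ hi => absurd hi (Nat.not_lt_zero _)

/-- one piece -/
theorem ents_dnF {Ps : List (ℕ × ℕ)} {st : Stp} {B n a k H : ℕ} (h0 : ∀ i < a, Val (stD (dnL Ps) st) (prc B i))
    (h : j0F Ps B n a H = true) (hk : a + n = k) : ∀ i < k, Val (stD (dnL Ps) st) (prc B i) := by
  intro i hi
  by_cases h1 : i < a
  · exact h0 i h1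
  · obtain ⟨h2, h3⟩ := j0F_of h i (by omega) (by omega)
    exact val_mem st h2 h3

end EF18.P79
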